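import Pool.Agent.H84.BareDefs

/-! There is no barely independent family over a cardinal of uncountable cofinality below the
splitting number. -/

namespace Pool.Agent.Results.MP_ce2de7_lc.No

open Set Cardinal Pool.Agent.H84.Bare

theorem result (X : Type) (hcf : ℵ₀ < (#X).ord.cof) (hs : #X < splitNum) :
    ¬ ∃ 𝓘 : Set (Set X), BarelyIndep 𝓘 := by
  classical
  rintro ⟨𝓘, -, hinf, -, hbar⟩
  let A : ℕ → Set X := fun n => (hinf.natEmbedding 𝓘 n : Set X)
  have hAi : Function.Injective A := Subtype.val_injective.comp (hinf.natEmbedding 𝓘).injective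
  have hAm : ∀ n, A n ∈ 𝓘 := fun n => (hinf.natEmbedding 𝓘 n).2
  let s : X → Set ℕ := fun x => {n | x ∈ A n}
  have h1 : ¬ ∀ R : Set ℕ, R.Infinite → ∃ S ∈ range s, (R ∩ S).Infinite ∧ (R \ S).Infinite :=
    fun h => (hs.trans_le (csInf_le' ⟨range s, rfl, h⟩)).not_ge mk_range_le
  push Not at h1
  obtain ⟨B, hB, hBs⟩ := h1
  have h2 : ∀ x, ∃ p : ℕ × Bool, ∀ n ∈ B, p.1 < n → (x ∈ A n ↔ p.2 = true) := by
    intro x
    by_cases hx : (B ∩ s x).Infinite
    · obtain ⟨k, hk⟩ := (hBs _ ⟨x, rfl⟩ hx).bddAbove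
      refine ⟨(k, true), fun n hn hkn => iff_of_true ?_ rfl⟩
      by_contra hn'
      exact (hk ⟨hn, hn'⟩).not_gt hkn
    · obtain ⟨k, hk⟩ := (not_infinite.1 hx).bddAbove
      exact ⟨(k, false), fun n hn hkn =>
        iff_of_false (fun hn' => (hk ⟨hn, hn'⟩).not_gt hkn) Bool.false_ne_true⟩
  choose f hf using h2
  have hX : ℵ₀ ≤ #X := hcf.le.trans (by simpa using Ordinal.cof_le_card (#X).ord)
  obtain ⟨p, hp⟩ := Cardinal.infinite_pigeonhole f hX (mk_le_aleph0.trans_lt hcf)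
  have h3 := hbar (A '' (B \ Iic p.1)) (by rintro _ ⟨n, -, rfl⟩; exact hAm n)
    ((to_countable _).image A) ((hB.diff (finite_Iic _)).image hAi.injOn) fun _ => p.2 = true
  refine h3.not_ge (hp ▸ mk_le_mk_of_subset ?_)
  rintro x hx _ ⟨n, hn, rfl⟩
  obtain rfl : f x = p := hx
  exact hf x n hn.1 (not_le.1 hn.2)

end Pool.Agent.Results.MP_ce2de7_lc.No
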